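import Pool.Agent.Helper62.IX.Stm
import Pool.Agent.Helper4.GX.FewA
import Pool.Agent.Helper4.HX.W

/-!
# `I_FewA`
-/

set_option autoImplicit false

open Polynomial Matrix Finset NumberField IsDedekindDomain

namespace Pool.Agent.Helper82.IX

open Pool.Agent.Helper62.BM Pool.Agent.Helper62.BX Pool.Agent.Helper62.CX Pool.Agent.Helper62.GX
  Pool.Agent.Helper62.HX Pool.Agent.Helper62.IX
  Pool.Agent.Helper90.BM Pool.Agent.Helper4.BM Pool.Agent.Helper4.BX Pool.Agent.Helper4.CX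
open Pool.Agent.Helper62.BW (dt coeff_dt map_dt sep_clear sep_map map_ne W_Irr W_Strong W_Tr W_FewG
  Fam IrrF Dat Gen)

section maps

variable {ι : Type} [Fintype ι] [DecidableEq ι] {A B : Type} [CommRing A] [CommRing B]

theorem map_rootT (φ : A →+* B) {m N : ℕ} {ρ nd : ι → ℕ} {a : ι → A[X]} {T : A[X]}
    (h : RootT m N ρ nd a T) : RootT m N ρ nd (fun l => (a l).map φ) (T.map φ) := by
  obtain ⟨h1, h2⟩ := h
  refine ⟨by rw [coeff_map, h1, map_one], ?_⟩
  obtain ⟨q, hq⟩ := h2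
  refine ⟨q.map φ, ?_⟩
  have h3 := congrArg (fun q => Polynomial.map φ q) hq
  simp only [Polynomial.map_pow, Polynomial.map_X, Polynomial.map_sub,
    Polynomial.map_mul, Polynomial.map_prod, Polynomial.map_one] at h3
  simp only [reflect_map]
  exact h3

theorem map_res (φ : A →+* B) (c : ℕ) (T : A[X]) (l : ℕ) : φ (res c T l) = res c (T.map φ) l := by
  unfold res
  split_ifs
  · rw [map_zero]
  · rw [coeff_map]

theorem map_horT (φ : A →+* B) {n : ℕ} {c : Fin (n + 1)} {T : A[X][X]} {W : A[X]}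
    {M : Matrix (Fin (n + 1)) (Fin (n + 1)) A[X]} (h : HorT c T W M) :
    HorT c (T.map (mapRingHom φ)) (W.map φ) (M.map (mapRingHom φ)) := by
  intro l
  have h1 := congrArg (mapRingHom φ) (h l)
  rw [map_mul, map_sum] at h1
  simp only [map_mul, map_res] at h1
  rw [coe_mapRingHom] at h1
  rw [← derivative_map] at h1
  have h2 : (res (c : ℕ) T (l : ℕ)).map φ = res (c : ℕ) (T.map (mapRingHom φ)) (l : ℕ) := by
    rw [← map_res]
    rfl
  rw [h2] at h1
  exact h1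

theorem map_MI (φ : A →+* B) {n : ℕ} (c : Fin (n + 1)) (T : A[X])
    (M : Matrix (Fin (n + 1)) (Fin (n + 1)) A) :
    (MI c T M).map φ = MI c (T.map φ) (M.map φ) := by
  ext1 i j
  unfold MI
  rw [Matrix.map_apply, Matrix.of_apply, Matrix.of_apply, map_sub, map_mul, map_res]
  rfl

variable [IsDomain A] [IsDomain B]

theorem famI_map (φ : A →+* B) (hφ : Function.Injective φ) {m n : ℕ} {ρ nd : ι → ℕ}
    {c : Fin (n + 1)} {a : ι → A[X][X]} {T : A[X][X]}
    {D : Cdat A n} {P S : Fin (n + 1) → A[X][X]} (h : FamI m ρ nd c a T D P S) :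
    FamI m ρ nd c (fun l => (a l).map (mapRingHom φ)) (T.map (mapRingHom φ)) (D.map φ)
      (fun l => (P l).map (mapRingHom φ)) (fun l => (S l).map (mapRingHom φ)) := by
  obtain ⟨h1, h2, h3, h4, h5, h6, h7⟩ := h
  have hM : (Mc P S).map (mapRingHom φ) =
      Mc (fun l => (P l).map (mapRingHom φ)) (fun l => (S l).map (mapRingHom φ)) := by
    ext1 i j
    rw [Matrix.map_apply, coe_mapRingHom, Pool.Agent.Helper36.CX.map_Mc]
  refine ⟨Pool.Agent.Helper4.GX.genG_map φ hφ h1, h2, h3, map_rootT (mapRingHom φ) h4, ?_, ?_, ?_⟩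
  · rw [Pool.Agent.Helper62.CX.map_W]
    exact Pool.Agent.Helper4.GX.map_relG φ h5
  · rw [Pool.Agent.Helper62.CX.map_W, ← hM]
    exact map_horT φ h6
  · show D.M.map (mapRingHom φ) = _
    rw [h7, map_MI, hM]

end maps

section half

variable {ι : Type} [Fintype ι] [DecidableEq ι]

theorem YG_halfE (R : Type) [CommRing R] (p r m g : ℕ) (ρ : ι → ℕ) (hr : 0 < r)
    (hm : 2 * r = m) (hρ : ∀ l, ρ l = r) (hp : m ∣ p - 1) (a : ι → R[X]) (i j : Fin g) :
    YG p (fun l => ρ l * ((p - 1) / m)) g g a i j = Yh p g g (∏ l, a l) i j := by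
  obtain ⟨c, hc⟩ := hp
  have h1 : (p - 1) / m = c := by
    rw [hc]
    exact Nat.mul_div_cancel_left _ (by omega)
  have h2 : (p - 1) / 2 = r * c := by
    rw [hc, ← hm, mul_assoc]
    exact Nat.mul_div_cancel_left _ (by omega)
  unfold YG Yh
  rw [Matrix.of_apply, Matrix.of_apply, h1, h2]
  have h3 : ∏ l, a l ^ (ρ l * c) = (∏ l, a l) ^ (r * c) := by
    rw [← Finset.prod_pow]
    exact Finset.prod_congr rfl fun l _ => by rw [hρ]
  rw [h3]

/-- the symplectic summand -/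
theorem fewHalfI (hHalf : I_Half) (hIrrE : H_Irr) (wStrong : W_Strong)
    (wTr : W_Tr) (hG : H_FewG) (m r g : ℕ) (ρ nd : ι → ℕ) (hm : 2 * r = m)
    (hρ : ∀ l, ρ l = r) (hr : 0 < r) (hg : 1 ≤ g) (hnd : 2 * g + 2 = ∑ l, nd l)
    (A : Type) [CommRing A] [IsDomain A] [CharZero A] [Countable A]
    (a : ι → A[X][X]) (hgen : GenG nd a) (L : Type) [Field L] [CharZero L] (ψ : A →+* L)
    (hψ : Function.Injective ψ)
    (hdat : ∃ (G H : A[X][X]) (D : Dat A g) (P S : Fin (2 * g) → A[X][X]),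
      ∏ l, a l = G ^ 2 + H ∧ FamE g G H D P S ∧ D.Ok)
    (hirr : IrrI L m ρ nd (2 * g) g (fun l => (a l).map (mapRingHom ψ)))
    (Γ : MvPolynomial (Fin g × Fin g) A[X]) (hG0 : Γ ≠ 0) (ε : ℝ) (hε : 0 < ε) :
    ∃ (p₀ : ℕ) (a₀ : A), a₀ ≠ 0 ∧
      ∀ (p : ℕ) [Fact p.Prime] (k : Type) [Field k] [CharP k p] (φ : A →+* k), p₀ ≤ p →
      m ∣ p - 1 → φ a₀ ≠ 0 → ∀ T : Finset k, (∀ t ∈ T, t ^ p = t ∧
        MvPolynomial.eval₂ ((evalRingHom t).comp (mapRingHom φ))
          (fun s : Fin g × Fin g =>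
          (YG p (fun j => ρ j * ((p - 1) / m)) g g
            (fun j => (a j).map (mapRingHom φ)) s.1 s.2).eval t) Γ = 0) →
        (T.card : ℝ) ≤ ε * p := by
  obtain ⟨G, H, D, P, S, hGH, hFam, hOk⟩ := hdat
  have k1 := Pool.Agent.Helper4.HX.famE_map ψ hψ hFam
  have k2 := Pool.Agent.Helper62.BW.ok_inj D hOk ψ hψ
  have hgen' := Pool.Agent.Helper4.GX.genG_map ψ hψ hgen
  have hGH' : ∏ l, (a l).map (mapRingHom ψ) =
      G.map (mapRingHom ψ) ^ 2 + H.map (mapRingHom ψ) := by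
    rw [← Polynomial.map_prod, hGH, Polynomial.map_add, Polynomial.map_pow]
  have k0 := hHalf ι L m g ρ nd (by omega) (fun l => by rw [hρ, hm]) hg hnd _ hgen' _ _
    k1.1.1 k1.1.2.1 k1.1.2.2.1 hGH' hirr
  have k3 := hIrrE L g hg _ _ _ _ _ k1 k2 k0
  have k4 := wStrong L g hg _ k2 k3
  have k5 := wTr A g D hOk L (FractionRing A) _ _ hψ
      (IsFractionRing.injective A (FractionRing A)) k4
  obtain ⟨p₀, a₀, ha₀, hfew⟩ := hG g hg A G H D P S hFam hOk k5 Γ hG0 ε hε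
  refine ⟨p₀, a₀, ha₀, ?_⟩
  intro p _ k _ _ φ hp hmp hφ T hT
  refine hfew p k φ hp hφ T fun t ht => ⟨(hT t ht).1, ?_⟩
  rw [← (hT t ht).2]
  congr 1
  funext s
  rw [YG_halfE k[X] p r m g ρ hr hm hρ hmp, ← Polynomial.map_prod, hGH]

end half

/-- `I_FewA`. -/
theorem i_FewA (hStrong : C_Strong) (hTr : C_Tr) (hIrr : I_Irr) (hG : I_FewG)
    (hHalf : I_Half) (hIrrE : H_Irr) (wStrong : W_Strong) (wTr : W_Tr) (hGE : H_FewG) :
    I_FewA := by
  intro ι _ _ m n ρ nd c hρ hn2 hcn hnd hsum A _ _ _ _ L _ _ θ hθ a hdat hdat2 hI hO G hG0 ε hε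
  obtain ⟨T, D, P, S, hFam, hOk⟩ := hdat
  by_cases h2 : ∀ l, 2 * ρ l = m
  · -- the symplectic case
    obtain ⟨l₀⟩ : Nonempty ι := by
      by_contra hne
      rw [not_nonempty_iff] at hne
      rw [Finset.sum_of_isEmpty] at hnd
      omega
    obtain ⟨r, hr⟩ : ∃ r, r = ρ l₀ := ⟨_, rfl⟩
    have hm : 2 * r = m := by rw [hr]; exact h2 l₀
    have hρr : ∀ l, ρ l = r := fun l => by
      have := h2 l
      omega
    have hr0 : 0 < r := by rw [hr]; exact (hρ l₀).1
    have hs : ∑ l, ρ l * nd l = r * (n + 2) := by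
      rw [hnd, Finset.mul_sum]
      exact Finset.sum_congr rfl fun l _ => by rw [hρr]
    have hnc : n = 2 * (c : ℕ) := by
      rw [hs, ← hm] at hsum
      have h3 : r * (2 * ((c : ℕ) + 1)) = r * (n + 2) := by rw [← hsum]; ring
      have h4 := Nat.eq_of_mul_eq_mul_left hr0 h3
      omega
    obtain ⟨g, hg⟩ : ∃ g, (c : ℕ) = g := ⟨_, rfl⟩
    have hcg := hg
    have hng : n = 2 * g := by rw [hnc, hg]
    have hgen := hFam.1
    have hdat3 := hdat2 g h2 hng
    clear hFam hOk hdat2 D P S T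
    revert hI G
    rw [hcg, hng]
    intro hI G hG0
    exact fewHalfI hHalf hIrrE wStrong wTr hGE m r g ρ nd hm hρr hr0 (by omega) (by omega) A a hgen
      L θ hθ hdat3 hI G hG0 ε hε
  · -- the special linear case
    have k1 := famI_map θ hθ hFam
    have k2 := Pool.Agent.Helper62.CX.ok_inj D hOk θ hθ
    obtain ⟨i1, i2⟩ := hIrr ι L m n ρ nd c hρ (by omega) _ _ _ _ _ k1 k2
    have k3 := i1 hI
    have k4 : (D.map θ).Strong := by
      refine hStrong L n hn2 _ k2 k3 ?_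
      rcases hO with h | h | h | h
      · exact absurd h h2
      · exact Or.inl h
      · exact Or.inr (Or.inl h)
      · exact Or.inr (Or.inr (i2 k3 h))
    have k5 := hTr A n D hOk L (FractionRing A) _ _ hθ
      (IsFractionRing.injective A (FractionRing A)) k4
    exact hG ι m n ρ nd c hρ hn2 hcn A a T D P S hFam hOk k5 G hG0 ε hε

end Pool.Agent.Helper82.IX
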